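import Pool.Agent.W203.SP.Stm

/-!
SP-K6: the Gaussian integral.
-/

set_option autoImplicit false

namespace Pool.Agent.W290.SP

open MeasureTheory Set Complex Filter Topology
open scoped ENNReal NNReal FourierTransform RealInnerProductSpace ContDiff
open Pool.Agent.W203.SP

/-- the damped kernel -/
noncomputable def KK (δ r t q : ℝ) : ℂ :=
  cexp (-((δ : ℂ) + 2 * Real.pi * I * r) * q ^ 2 + 2 * Real.pi * I * t * q)

theorem norm_KK (δ r t q : ℝ) : ‖KK δ r t q‖ = Real.exp (-(δ * q ^ 2)) := by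
  unfold KK
  rw [Complex.norm_exp]
  congr 1
  have h : (-((δ : ℂ) + 2 * Real.pi * I * r) * q ^ 2 + 2 * Real.pi * I * t * q) =
      ((-(δ * q ^ 2) : ℝ) : ℂ) + ((-(2 * Real.pi * r) * q ^ 2 + 2 * Real.pi * t * q : ℝ) : ℂ) * I := by
    push_cast
    ring
  rw [h, Complex.add_re, Complex.ofReal_re, Complex.re_ofReal_mul, Complex.I_re, mul_zero, add_zero]

theorem KK_zero (r t q : ℝ) : KK 0 r t q = ee (t * q - r * q ^ 2) := by
  unfold KK ee
  congr 1
  push_cast
  ring

theorem cont_KK (δ r t : ℝ) : Continuous (KK δ r t) := by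
  unfold KK
  fun_prop

theorem int_KK (δ r t : ℝ) (hδ : 0 < δ) : Integrable (KK δ r t) := by
  have h := integrable_cexp_quadratic' (b := -((δ : ℂ) + 2 * Real.pi * I * r)) (by simp [hδ])
    (2 * Real.pi * I * t) 0
  refine h.congr (Eventually.of_forall fun q => ?_)
  unfold KK
  show cexp (-((δ : ℂ) + 2 * Real.pi * I * r) * q ^ 2 + 2 * Real.pi * I * t * q + 0) = _
  rw [add_zero]

theorem inner_int (δ r t z : ℝ) (hδ : 0 < δ) :
    ∫ q : ℝ, cexp (((2 * Real.pi * (z * q) : ℝ) : ℂ) * I) * KK δ r t q =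
      (Real.pi / ((δ : ℂ) + 2 * Real.pi * I * r)) ^ (1 / 2 : ℂ) *
        cexp (-(Real.pi ^ 2 * (t + z) ^ 2) / ((δ : ℂ) + 2 * Real.pi * I * r)) := by
  have h := integral_cexp_quadratic (b := -((δ : ℂ) + 2 * Real.pi * I * r)) (by simp [hδ])
    (2 * Real.pi * I * (t + z)) 0
  have h1 : ∀ q : ℝ, cexp (((2 * Real.pi * (z * q) : ℝ) : ℂ) * I) * KK δ r t q =
      cexp (-((δ : ℂ) + 2 * Real.pi * I * r) * q ^ 2 + 2 * Real.pi * I * (t + z) * q + 0) := by
    intro q
    unfold KK
    rw [← Complex.exp_add]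
    congr 1
    push_cast
    ring
  rw [integral_congr_ae (Eventually.of_forall h1), h, neg_neg]
  congr 2
  have h0 : ((δ : ℂ) + 2 * Real.pi * I * r) ≠ 0 := by
    intro h0
    have := congrArg Complex.re h0
    simp at this
    exact hδ.ne' this
  field_simp
  ring_nf
  rw [I_sq]
  ring

theorem inv_formula (g : ℝ → ℂ) (hg : Continuous g) (hgi : Integrable g)
    (hF : Integrable (𝓕 g)) (q : ℝ) :
    g q = ∫ z : ℝ, cexp (((2 * Real.pi * (z * q) : ℝ) : ℂ) * I) * 𝓕 g z := by
  have h1 := congrFun (hg.fourierInv_fourier_eq hgi hF) q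
  rw [← h1, Real.fourierInv_eq']
  congr 1
  funext z
  rw [smul_eq_mul]
  congr 3
  simp [mul_comm]

theorem stepA (g : ℝ → ℂ) (hg : Continuous g) (hgi : Integrable g) (hF : Integrable (𝓕 g))
    (δ r t : ℝ) (hδ : 0 < δ) :
    ∫ q, g q * KK δ r t q = (Real.pi / ((δ : ℂ) + 2 * Real.pi * I * r)) ^ (1 / 2 : ℂ) *
      ∫ z : ℝ, 𝓕 g z *
        cexp (-(Real.pi ^ 2 * (t + z) ^ 2) / ((δ : ℂ) + 2 * Real.pi * I * r)) := by
  have hprod : Integrable (fun p : ℝ × ℝ => KK δ r t p.1 * 𝓕 g p.2) (volume.prod volume) :=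
    (int_KK δ r t hδ).mul_prod hF
  have hf : Integrable (Function.uncurry fun q z : ℝ =>
      cexp (((2 * Real.pi * (z * q) : ℝ) : ℂ) * I) * 𝓕 g z * KK δ r t q)
      (volume.prod volume) := by
    have hce : Continuous fun p : ℝ × ℝ => cexp (((2 * Real.pi * (p.2 * p.1) : ℝ) : ℂ) * I) := by
      fun_prop
    refine Integrable.congr (Integrable.mono hprod
      (hce.aestronglyMeasurable.mul hprod.aestronglyMeasurable)
      (Eventually.of_forall fun p => ?_)) (Eventually.of_forall fun p => ?_)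
    · rw [Pi.mul_apply, norm_mul, Complex.norm_exp_ofReal_mul_I, one_mul]
    · rw [Pi.mul_apply]
      show cexp (((2 * Real.pi * (p.2 * p.1) : ℝ) : ℂ) * I) * (KK δ r t p.1 * 𝓕 g p.2) =
        cexp (((2 * Real.pi * (p.2 * p.1) : ℝ) : ℂ) * I) * 𝓕 g p.2 * KK δ r t p.1
      ring
  have h1 : ∀ q, g q * KK δ r t q =
      ∫ z : ℝ, cexp (((2 * Real.pi * (z * q) : ℝ) : ℂ) * I) * 𝓕 g z * KK δ r t q := by
    intro q
    rw [integral_mul_const, ← inv_formula g hg hgi hF q]
  rw [integral_congr_ae (Eventually.of_forall h1), integral_integral_swap hf,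
    ← integral_const_mul]
  congr 1
  funext z
  have h2 : ∀ q : ℝ, cexp (((2 * Real.pi * (z * q) : ℝ) : ℂ) * I) * 𝓕 g z * KK δ r t q =
      𝓕 g z * (cexp (((2 * Real.pi * (z * q) : ℝ) : ℂ) * I) * KK δ r t q) := by
    intro q; ring
  rw [integral_congr_ae (Eventually.of_forall h2), integral_const_mul, inner_int δ r t z hδ]
  ring

theorem exp_le_one (δ r s : ℝ) (hδ : 0 < δ) :
    ‖cexp (-(Real.pi ^ 2 * s ^ 2 : ℂ) / ((δ : ℂ) + 2 * Real.pi * I * r))‖ ≤ 1 := by
  rw [Complex.norm_exp]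
  apply Real.exp_le_one_iff.2
  have h1 : (-(Real.pi ^ 2 * s ^ 2 : ℂ) / ((δ : ℂ) + 2 * Real.pi * I * r)) =
      ((-(Real.pi ^ 2 * s ^ 2) : ℝ) : ℂ) * ((δ : ℂ) + 2 * Real.pi * I * r)⁻¹ := by
    push_cast
    ring
  rw [h1, Complex.re_ofReal_mul, Complex.inv_re]
  have h2 : ((δ : ℂ) + 2 * Real.pi * I * r).re = δ := by simp
  rw [h2]
  have h3 : 0 ≤ δ / Complex.normSq ((δ : ℂ) + 2 * Real.pi * I * r) :=
    div_nonneg hδ.le (Complex.normSq_nonneg _)
  have h4 : 0 ≤ Real.pi ^ 2 * s ^ 2 := by positivity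
  nlinarith

theorem t_K6 : S_K6 := by
  intro g hg hgi hF t r hr
  have hrc : (r : ℂ) ≠ 0 := by exact_mod_cast hr
  have hpc : (Real.pi : ℂ) ≠ 0 := by exact_mod_cast Real.pi_ne_zero
  have hpos : ∀ᶠ δ : ℝ in 𝓝[>] 0, 0 < δ := self_mem_nhdsWithin
  have hden : Tendsto (fun δ : ℝ => (δ : ℂ) + 2 * Real.pi * I * r) (𝓝[>] 0)
      (𝓝 (2 * Real.pi * I * r)) := by
    have h1 : Continuous fun δ : ℝ => (δ : ℂ) + 2 * Real.pi * I * r := by fun_prop
    have h2 := h1.tendsto 0
    rw [Complex.ofReal_zero, zero_add] at h2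
    exact h2.mono_left nhdsWithin_le_nhds
  have hne : (2 * Real.pi * I * r : ℂ) ≠ 0 :=
    mul_ne_zero (mul_ne_zero (mul_ne_zero two_ne_zero hpc) I_ne_zero) hrc
  -- left side
  have hL : Tendsto (fun δ : ℝ => ∫ q, g q * KK δ r t q) (𝓝[>] 0)
      (𝓝 (∫ q, g q * ee (t * q - r * q ^ 2))) := by
    apply tendsto_integral_filter_of_dominated_convergence (fun q => ‖g q‖)
    · exact Eventually.of_forall fun δ => (hg.mul (cont_KK δ r t)).aestronglyMeasurable
    · filter_upwards [hpos] with δ hδ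
      refine Eventually.of_forall fun q => ?_
      rw [norm_mul, norm_KK]
      apply mul_le_of_le_one_right (norm_nonneg _)
      apply Real.exp_le_one_iff.2
      have : 0 ≤ δ * q ^ 2 := mul_nonneg hδ.le (sq_nonneg _)
      linarith
    · exact hgi.norm
    · refine Eventually.of_forall fun q => ?_
      apply Tendsto.const_mul
      rw [← KK_zero]
      have h1 : Continuous fun δ : ℝ => KK δ r t q := by
        unfold KK
        fun_prop
      exact (h1.tendsto 0).mono_left nhdsWithin_le_nhds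
  -- right side
  have hR : Tendsto (fun δ : ℝ => (Real.pi / ((δ : ℂ) + 2 * Real.pi * I * r)) ^ (1 / 2 : ℂ) *
      ∫ z : ℝ, 𝓕 g z *
        cexp (-(Real.pi ^ 2 * (t + z) ^ 2) / ((δ : ℂ) + 2 * Real.pi * I * r))) (𝓝[>] 0)
      (𝓝 (cr r * ∫ z, 𝓕 g z * ee ((t + z) ^ 2 / (4 * r)))) := by
    apply Tendsto.mul
    · have h1 : Tendsto (fun δ : ℝ => (Real.pi : ℂ) / ((δ : ℂ) + 2 * Real.pi * I * r)) (𝓝[>] 0)
          (𝓝 (1 / (2 * I * r))) := by
        have h2 := (tendsto_const_nhds (x := (Real.pi : ℂ))).div hden hne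
        have h3 : (Real.pi : ℂ) / (2 * Real.pi * I * r) = 1 / (2 * I * r) := by
          field_simp
        rwa [h3] at h2
      have h4 : (1 / (2 * I * r) : ℂ) ∈ slitPlane := by
        rw [mem_slitPlane_iff]
        right
        have h5 : (1 / (2 * I * r) : ℂ) = ((-(1 / (2 * r)) : ℝ) : ℂ) * I := by
          push_cast
          field_simp
          rw [I_sq]
          ring
        rw [h5]
        simp [hr]
      exact (continuousAt_cpow_const (b := (1 / 2 : ℂ)) h4).tendsto.comp h1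
    · apply tendsto_integral_filter_of_dominated_convergence (fun z => ‖𝓕 g z‖)
      · refine Eventually.of_forall fun δ => hF.aestronglyMeasurable.mul ?_
        have : Continuous fun z : ℝ =>
            cexp (-(Real.pi ^ 2 * ((t : ℂ) + z) ^ 2) / ((δ : ℂ) + 2 * Real.pi * I * r)) := by
          fun_prop
        exact this.aestronglyMeasurable
      · filter_upwards [hpos] with δ hδ
        refine Eventually.of_forall fun z => ?_
        rw [norm_mul]
        apply mul_le_of_le_one_right (norm_nonneg _)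
        have := exp_le_one δ r (t + z) hδ
        push_cast at this
        exact this
      · exact hF.norm
      · refine Eventually.of_forall fun z => ?_
        apply Tendsto.const_mul
        have h1 : ee ((t + z) ^ 2 / (4 * r)) =
            cexp (-(Real.pi ^ 2 * ((t : ℂ) + z) ^ 2) / (2 * Real.pi * I * r)) := by
          unfold ee
          congr 1
          push_cast
          field_simp
          ring_nf
          rw [I_sq]
          ring
        rw [h1]
        exact (Complex.continuous_exp.tendsto _).comp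
          ((tendsto_const_nhds (x := (-(Real.pi ^ 2 * ((t : ℂ) + z) ^ 2)))).div hden hne)
  refine tendsto_nhds_unique hL ?_
  refine hR.congr' ?_
  filter_upwards [hpos] with δ hδ
  rw [stepA g hg hgi hF δ r t hδ]

end Pool.Agent.W290.SP
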